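import Pool.Agent.D0H69.JT.Stm

/-!
# JT ALG (helper52)
-/

set_option autoImplicit false
set_option linter.unusedVariables false

open scoped Classical

namespace Pool.Agent.D0H52.JT

open Finset
open Pool.Agent.D0H69.JT

theorem den_pos (i : ℕ) : (0 : ℝ) < 3 ^ (i + 1) - 1 := by
  have : (1 : ℝ) < 3 ^ (i + 1) := one_lt_pow₀ (by norm_num) (by omega)
  linarith

theorem hh_nonneg (k x : ℕ) : 0 ≤ hh k (3 ^ x) := by
  unfold hh
  by_cases h : x < k
  · rw [Finset.prod_eq_zero (Finset.mem_range.2 h)]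
    rw [sub_self, zero_div]
  · apply Finset.prod_nonneg
    intro i hi
    have hi' := Finset.mem_range.1 hi
    have : (3 : ℝ) ^ i ≤ 3 ^ x := pow_le_pow_right₀ (by norm_num) (by omega)
    exact div_nonneg (by linarith) (den_pos i).le

/-- the alternating sums -/
noncomputable def AA (K : ℕ) (Y : ℝ) : ℝ := ∏ i ∈ range K, (3 ^ (i + 1) - Y) / (3 ^ (i + 1) - 1)

theorem hh_succ_eq (K : ℕ) (Y : ℝ) :
    (-1 : ℝ) ^ (K + 1) * hh (K + 1) Y = AA K Y * ((1 - Y) / (3 ^ (K + 1) - 1)) := by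
  unfold hh AA
  rw [Finset.prod_div_distrib, Finset.prod_div_distrib, Finset.prod_range_succ' (fun i => Y - 3 ^ i),
    Finset.prod_range_succ (fun i => (3 : ℝ) ^ (i + 1) - 1)]
  have h1 : (-1 : ℝ) ^ K * ∏ i ∈ range K, (Y - 3 ^ (i + 1)) = ∏ i ∈ range K, ((3 : ℝ) ^ (i + 1) - Y) := by
    have h2 : ∏ i ∈ range K, ((3 : ℝ) ^ (i + 1) - Y) = ∏ i ∈ range K, ((-1) * (Y - (3 : ℝ) ^ (i + 1))) := by
      apply Finset.prod_congr rfl
      intro i _
      ring
    rw [h2, Finset.prod_mul_distrib, Finset.prod_const, Finset.card_range]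
  rw [← h1]
  generalize ∏ i ∈ range K, (Y - 3 ^ (i + 1)) = A
  generalize ∏ i ∈ range K, ((3 : ℝ) ^ (i + 1) - 1) = D
  generalize (3 : ℝ) ^ (K + 1) - 1 = e
  ring

theorem sum_hh (K : ℕ) (Y : ℝ) : ∑ k ∈ range (K + 1), (-1 : ℝ) ^ k * hh k Y = AA K Y := by
  induction K with
  | zero => simp [hh, AA]
  | succ K ih =>
    rw [Finset.sum_range_succ, ih, hh_succ_eq]
    have h1 : AA (K + 1) Y = AA K Y * ((3 ^ (K + 1) - Y) / (3 ^ (K + 1) - 1)) := by
      unfold AA
      rw [Finset.prod_range_succ]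
    rw [h1]
    have h2 := den_pos K
    have h3 : ((3 : ℝ) ^ (K + 1) - 1) ≠ 0 := h2.ne'
    field_simp
    ring

theorem bon (K x : ℕ) : |(if x = 0 then 1 else 0) - ∑ k ∈ range (K + 1), (-1 : ℝ) ^ k * hh k (3 ^ x)| ≤
    hh (K + 1) (3 ^ x) := by
  rw [sum_hh]
  have h0 := hh_nonneg (K + 1) x
  by_cases hx : x = 0
  · subst hx
    have h1 : AA K ((3 : ℝ) ^ 0) = 1 := by
      unfold AA
      apply Finset.prod_eq_one
      intro i _
      rw [pow_zero]
      exact div_self (den_pos i).ne'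
    rw [if_pos rfl, h1, sub_self, abs_zero]
    exact h0
  · rw [if_neg hx, zero_sub, abs_neg]
    by_cases hxK : x ≤ K
    · have h1 : AA K ((3 : ℝ) ^ x) = 0 := by
        unfold AA
        apply Finset.prod_eq_zero (Finset.mem_range.2 (show x - 1 < K by omega))
        rw [Nat.sub_add_cancel (by omega), sub_self, zero_div]
      rw [h1, abs_zero]
      exact h0
    · have h1 := congrArg abs (hh_succ_eq K ((3 : ℝ) ^ x))
      rw [abs_mul, abs_mul, abs_pow, abs_neg, abs_one, one_pow, one_mul, abs_of_nonneg h0] at h1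
      rw [h1]
      have h2 : (3 : ℝ) ^ (K + 1) ≤ 3 ^ x := pow_le_pow_right₀ (by norm_num) (by omega)
      have h3 := den_pos K
      have h4 : 1 ≤ |(1 - (3 : ℝ) ^ x) / (3 ^ (K + 1) - 1)| := by
        rw [abs_div, abs_of_pos h3, le_div_iff₀ h3, one_mul, abs_sub_comm, abs_of_nonneg (by linarith)]
        linarith
      exact le_mul_of_one_le_right (abs_nonneg _) h4

theorem ratio (k : ℕ) : (3 : ℝ) ^ k.choose 2 / ∏ i ∈ range k, (3 ^ (i + 1) - 1 : ℝ) ≤ (1 / 2) ^ k := by
  induction k with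
  | zero => simp
  | succ k ih =>
    have h1 : (k + 1).choose 2 = k.choose 2 + k := by
      rw [Nat.choose_succ_succ' k 1, Nat.choose_one_right, add_comm]
    rw [h1, Finset.prod_range_succ, pow_add, mul_div_mul_comm, pow_succ (1 / 2 : ℝ) k]
    have h2 := den_pos k
    have h3 : (3 : ℝ) ^ k / (3 ^ (k + 1) - 1) ≤ 1 / 2 := by
      rw [div_le_div_iff₀ h2 (by norm_num)]
      have : (1 : ℝ) ≤ 3 ^ k := one_le_pow₀ (by norm_num)
      rw [pow_succ]
      linarith
    exact mul_le_mul ih h3 (div_nonneg (by positivity) h2.le) (by positivity)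

theorem prod_diff {κ : Type} (s : Finset κ) (a b h f : κ → ℝ) (ha : ∀ j, |a j| ≤ 1)
    (hb : ∀ j, |b j| ≤ f j) (hf : ∀ j, 1 ≤ f j) (hab : ∀ j, |a j - b j| ≤ h j) :
    |∏ j ∈ s, a j - ∏ j ∈ s, b j| ≤ ∑ j ∈ s, h j * ∏ i ∈ s.erase j, f i := by
  induction s using Finset.induction_on with
  | empty => simp
  | insert t s ht ih =>
    rw [Finset.prod_insert ht, Finset.prod_insert ht, Finset.sum_insert ht, Finset.erase_insert ht]
    have h1 : ∑ j ∈ s, h j * ∏ i ∈ (insert t s).erase j, f i =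
        f t * ∑ j ∈ s, h j * ∏ i ∈ s.erase j, f i := by
      rw [Finset.mul_sum]
      apply Finset.sum_congr rfl
      intro j hj
      have hne : j ≠ t := fun h => ht (h ▸ hj)
      rw [Finset.erase_insert_of_ne hne.symm, Finset.prod_insert]
      · ring
      · intro h
        exact ht (Finset.mem_of_mem_erase h)
    rw [h1]
    have h2 : a t * ∏ j ∈ s, a j - b t * ∏ j ∈ s, b j =
        (a t - b t) * ∏ j ∈ s, a j + b t * (∏ j ∈ s, a j - ∏ j ∈ s, b j) := by ring
    rw [h2]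
    refine (abs_add_le _ _).trans ?_
    rw [abs_mul, abs_mul]
    have h3 : |∏ j ∈ s, a j| ≤ ∏ j ∈ s, f j := by
      rw [Finset.abs_prod]
      apply Finset.prod_le_prod
      · intro j _
        exact abs_nonneg _
      · intro j _
        exact (ha j).trans (hf j)
    have h4 : 0 ≤ h t := (abs_nonneg _).trans (hab t)
    apply add_le_add
    · exact mul_le_mul (hab t) h3 (abs_nonneg _) h4
    · exact mul_le_mul (hb t) ih (abs_nonneg _) (le_trans zero_le_one (hf t))

theorem t_ALG : S_ALG := by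
  refine ⟨hh_nonneg, bon, ratio, ?_⟩
  intro κ _ a b h f ha hb hf hab
  exact prod_diff univ a b h f ha hb hf hab

end Pool.Agent.D0H52.JT
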