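import Pool.Agent.D0H69.JT.Stm

/-!
# JT: statements without decidability instances (helper52)
-/

set_option autoImplicit false
set_option linter.unusedVariables false

open scoped Classical

namespace Pool.Agent.D0H52.JT

open Finset
open Pool.Agent.D0H69.JT

theorem filt_ncard {ι I : Type} [Fintype ι] [DecidableEq ι] (x : I → X ι)
    [DecidablePred fun S : Matrix ι ι (ZMod 3) => ∀ i, Gr S (x i)] :
    ((Sy ι).filter (fun S => ∀ i, Gr S (x i))).card = {S | S ∈ Sy ι ∧ ∀ i, Gr S (x i)}.ncard := by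
  rw [← Set.ncard_coe_finset]
  congr 1
  ext S
  simp

theorem L1n (hL1 : S_L1) (ι I : Type) [Fintype ι] [DecidableEq ι] [Fintype I] (x : I → X ι)
    (hli : LinearIndependent (ZMod 3) (fun i => (x i).1)) :
    ((∀ i i', (x i).1 ⬝ᵥ (x i').2 = (x i').1 ⬝ᵥ (x i).2) →
      {S | S ∈ Sy ι ∧ ∀ i, Gr S (x i)}.ncard * 3 ^ (Fintype.card ι * Fintype.card I) =
        (Sy ι).card * 3 ^ (Fintype.card I).choose 2) ∧
    ((¬ ∀ i i', (x i).1 ⬝ᵥ (x i').2 = (x i').1 ⬝ᵥ (x i).2) →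
      {S | S ∈ Sy ι ∧ ∀ i, Gr S (x i)}.ncard = 0) := by
  have h := hL1 ι I x hli
  rw [filt_ncard] at h
  exact h

theorem Pr_eq {κ ι : Type} [Fintype κ] [Fintype ι] [DecidableEq ι]
    (P : κ → Submodule (ZMod 3) (X ι)) :
    Pr P = ({S | S ∈ Sy ι ∧ ∀ j, ∀ x ∈ P j, Gr S x → x = 0}.ncard : ℝ) / (Sy ι).card := by
  unfold Pr
  congr 2
  rw [← Set.ncard_coe_finset]
  congr 1
  ext S
  simp

end Pool.Agent.D0H52.JT
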