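import Pool.Agent.D0H69.JT.Stm

/-!
# JT JLF (helper52)
-/

set_option autoImplicit false
set_option linter.unusedVariables false

open scoped Classical

namespace Pool.Agent.D0H52.JT

open Finset Filter Topology
open Pool.Agent.D0H69.JT
open Pool.Agent.Y703.XK (c9 S_SYM S_C9)

theorem t_JLF : S_JLF := by
  intro hB hL1 hC hI hM hR hG hK hS hA hsym hc9 hPhi κ _ ε hε
  have hphi := hPhi hB hL1 hC hI hM hR hG hK hS hA hsym hc9
  set m := Fintype.card κ with hm
  have hhalf : Tendsto (fun K : ℕ => (1 / 2 : ℝ) ^ (K + 1)) atTop (𝓝 0) :=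
    (tendsto_pow_atTop_nhds_zero_of_lt_one (by norm_num) (by norm_num)).comp (tendsto_add_atTop_nat 1)
  have h1 : Tendsto (fun K : ℕ => ph K) atTop (𝓝 c9) := by
    rw [tendsto_iff_dist_tendsto_zero]
    have h2 : Tendsto (fun K : ℕ => 2 * (1 / 2 : ℝ) ^ (K + 1)) atTop (𝓝 0) := by
      simpa using hhalf.const_mul 2
    refine squeeze_zero (fun K => dist_nonneg) (fun K => ?_) h2
    rw [Real.dist_eq, abs_sub_comm]
    exact hphi K
  have h2 : Tendsto (fun K : ℕ => |ph K ^ m - c9 ^ m|) atTop (𝓝 0) := by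
    have h3 := ((h1.pow m).sub_const (c9 ^ m)).abs
    simpa using h3
  have h3 : Tendsto (fun K : ℕ => (m : ℝ) * 2 ^ m * (1 / 2 : ℝ) ^ (K + 1)) atTop (𝓝 0) := by
    simpa using hhalf.const_mul ((m : ℝ) * 2 ^ m)
  obtain ⟨K, hK1, hK2⟩ := ((h2.eventually (gt_mem_nhds (show (0 : ℝ) < ε / 3 by positivity))).and
    (h3.eventually (gt_mem_nhds (show (0 : ℝ) < ε / 3 by positivity)))).exists
  obtain ⟨C, hC0, hC1⟩ := hB hL1 hC hI hM hR hG hK hS hA κ K
  set η : ℝ := ε / (3 * (C + 1)) with hη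
  have hη0 : 0 < η := by positivity
  refine ⟨min 1 (η ^ 2), lt_min zero_lt_one (by positivity), ?_⟩
  intro ι _ _ P hP
  have h4 := hC1 ι (min 1 (η ^ 2)) P (le_min zero_le_one (by positivity)) (min_le_left _ _) hP
  have h5 : Real.sqrt (min 1 (η ^ 2)) ≤ η := by
    calc Real.sqrt (min 1 (η ^ 2)) ≤ Real.sqrt (η ^ 2) := Real.sqrt_le_sqrt (min_le_right _ _)
      _ = η := Real.sqrt_sq hη0.le
  have h6 : C * Real.sqrt (min 1 (η ^ 2)) ≤ ε / 3 := by
    calc C * Real.sqrt (min 1 (η ^ 2)) ≤ C * η := mul_le_mul_of_nonneg_left h5 hC0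
      _ ≤ (C + 1) * η := mul_le_mul_of_nonneg_right (by linarith) hη0.le
      _ = ε / 3 := by
        rw [hη]
        field_simp
  rw [abs_le] at h4 ⊢
  have h7 := abs_lt.1 hK1
  constructor <;> linarith [h4.1, h4.2, h7.1, h7.2]

end Pool.Agent.D0H52.JT
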