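import Pool.Agent.D0H69.JT.Stm

/-!
# JT KPOW (helper52)
-/

set_option autoImplicit false
set_option linter.unusedVariables false

open scoped Classical

namespace Pool.Agent.D0H52.JT

open Finset
open Pool.Agent.D0H69.JT

section
variable {ι : Type} [Fintype ι]

/-- `KK` as a subspace -/
noncomputable def KS (P : Submodule (ZMod 3) (X ι)) (S : Matrix ι ι (ZMod 3)) : Submodule (ZMod 3) (X ι) :=
  P ⊓ LinearMap.ker ((Matrix.mulVecLin S) ∘ₗ LinearMap.fst (ZMod 3) (ι → ZMod 3) (ι → ZMod 3) -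
    LinearMap.snd (ZMod 3) (ι → ZMod 3) (ι → ZMod 3))

theorem mem_KS (P : Submodule (ZMod 3) (X ι)) (S : Matrix ι ι (ZMod 3)) (x : X ι) :
    x ∈ KS P S ↔ x ∈ P ∧ Gr S x := by
  unfold KS Gr
  rw [Submodule.mem_inf, LinearMap.mem_ker]
  simp [sub_eq_zero]

theorem coe_KS (P : Submodule (ZMod 3) (X ι)) (S : Matrix ι ι (ZMod 3)) :
    ((KS P S : Submodule (ZMod 3) (X ι)) : Set (X ι)) = KK P S := by
  ext x
  exact mem_KS P S x

theorem kk_eq (P : Submodule (ZMod 3) (X ι)) (S : Matrix ι ι (ZMod 3)) :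
    kk P S = 3 ^ Module.finrank (ZMod 3) (KS P S) := by
  have h : kk P S = Nat.card (KS P S) := by
    unfold kk
    rw [← coe_KS]
    rfl
  rw [h, Module.natCard_eq_pow_finrank (K := ZMod 3)]
  simp

end

theorem t_KPOW : S_KPOW := by
  intro ι _ _ S
  refine ⟨fun P => ⟨⟨_, kk_eq P S⟩, ?_⟩, ?_⟩
  · have h0 : (0 : X ι) ∈ KK P S := by
      rw [← coe_KS]
      exact (KS P S).zero_mem
    constructor
    · intro h x hx hg
      obtain ⟨a, ha⟩ := Set.ncard_eq_one.1 h
      have h1 : x ∈ KK P S := ⟨hx, hg⟩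
      rw [ha] at h0 h1
      rw [Set.mem_singleton_iff.1 h1, ← Set.mem_singleton_iff.1 h0]
    · intro h
      unfold kk
      rw [Set.ncard_eq_one]
      refine ⟨0, ?_⟩
      ext x
      constructor
      · intro hx
        exact h x hx.1 hx.2
      · intro hx
        rw [Set.mem_singleton_iff.1 hx]
        exact h0
  · intro κ _ P n
    have h1 : JJ P n S ⊆ ((Fintype.piFinset fun i : (Σ j, Fin (n j)) => (KK (P i.1) S).toFinset :
        Finset ((Σ j, Fin (n j)) → X ι)) : Set ((Σ j, Fin (n j)) → X ι)) := by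
      intro x hx
      rw [Finset.mem_coe, Fintype.mem_piFinset]
      intro i
      rw [Set.mem_toFinset]
      exact ⟨hx.1 i, hx.2.1 i⟩
    refine (Set.ncard_le_ncard h1 (Finset.finite_toSet _)).trans ?_
    rw [Set.ncard_coe_finset, Fintype.card_piFinset, Fintype.prod_sigma]
    apply le_of_eq
    apply Finset.prod_congr rfl
    intro j _
    have h2 : ∀ y : Fin (n j), #(KK (P (⟨j, y⟩ : Σ j, Fin (n j)).1) S).toFinset = kk (P j) S := by
      intro y
      unfold kk
      rw [Set.ncard_eq_toFinset_card']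
    rw [Finset.prod_congr rfl fun y _ => h2 y, Finset.prod_const, Finset.card_univ, Fintype.card_fin]

end Pool.Agent.D0H52.JT
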