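import Pool.Agent.D0H69.JT.Stm

/-!
# JT MOM (helper52)
-/

set_option autoImplicit false
set_option linter.unusedVariables false

open scoped Classical

namespace Pool.Agent.D0H52.JT

open Finset
open Pool.Agent.D0H69.JT

theorem Sy_pos (ι : Type) [Fintype ι] [DecidableEq ι] : (0 : ℝ) < ((Sy ι).card : ℝ) := by
  have : 0 < (Sy ι).card := Finset.card_pos.2 ⟨0, by
    unfold Sy
    rw [Finset.mem_filter]
    exact ⟨Finset.mem_univ _, Matrix.isSymm_zero⟩⟩
  exact_mod_cast this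

theorem t_MOM : S_MOM := by
  intro hL1 hC hI κ ι _ _ _ δ P n hδ hP
  have hr : Fintype.card (Σ j, Fin (n j)) = ∑ j, n j := by simp [Fintype.card_sigma]
  have hComp := hC κ ι δ P n hδ hP
  have hInd := hI κ ι δ P n hδ hP
  set N := Fintype.card ι with hN
  set r := ∑ j, n j with hrr
  set t : ℝ := 3 ^ (∑ j, (n j).choose 2) with ht
  let U : Finset ((Σ j, Fin (n j)) → X ι) :=
    univ.filter fun x => x ∈ Tp P n ∧ LinearIndependent (ZMod 3) fun i => (x i).1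
  let V : Finset ((Σ j, Fin (n j)) → X ι) :=
    U.filter fun x => ∀ i i', (x i).1 ⬝ᵥ (x i').2 = (x i').1 ⬝ᵥ (x i).2
  have hSy := Sy_pos ι
  have hq : (0 : ℝ) < 3 ^ (N * r) := by positivity
  have hs : (0 : ℝ) < 3 ^ (r.choose 2) := by positivity
  have h1 : ∀ S : Matrix ι ι (ZMod 3), ((JJ P n S).ncard : ℝ) = ∑ x ∈ U, if (∀ i, Gr S (x i)) then (1 : ℝ) else 0 := by
    intro S
    rw [Finset.sum_boole]
    congr 1
    have h2 : JJ P n S = ((U.filter fun x => ∀ i, Gr S (x i) : Finset ((Σ j, Fin (n j)) → X ι)) :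
        Set ((Σ j, Fin (n j)) → X ι)) := by
      ext x
      simp only [JJ, U, Set.mem_ofPred_eq, Finset.coe_filter, Finset.mem_filter, Finset.mem_univ, true_and]
      tauto
    rw [h2, Set.ncard_coe_finset]
  have h2 : ∑ S ∈ Sy ι, ((JJ P n S).ncard : ℝ) =
      ∑ x ∈ U, (((Sy ι).filter fun S => ∀ i, Gr S (x i)).card : ℝ) := by
    simp_rw [h1]
    rw [Finset.sum_comm]
    apply Finset.sum_congr rfl
    intro x _
    rw [Finset.sum_boole]
  have h3 : ∀ x ∈ U, (((Sy ι).filter fun S => ∀ i, Gr S (x i)).card : ℝ) =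
      if (∀ i i', (x i).1 ⬝ᵥ (x i').2 = (x i').1 ⬝ᵥ (x i).2) then
        ((Sy ι).card : ℝ) * 3 ^ (r.choose 2) / 3 ^ (N * r) else 0 := by
    intro x hx
    have hx' := (Finset.mem_filter.1 hx).2.2
    have h4 := hL1 ι (Σ j, Fin (n j)) x hx'
    rw [hr] at h4
    split_ifs with h
    · rw [eq_div_iff hq.ne']
      exact_mod_cast h4.1 h
    · exact_mod_cast h4.2 h
  have h4 : ∑ S ∈ Sy ι, ((JJ P n S).ncard : ℝ) =
      (V.card : ℝ) * (((Sy ι).card : ℝ) * 3 ^ (r.choose 2) / 3 ^ (N * r)) := by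
    rw [h2, Finset.sum_congr rfl h3, Finset.sum_ite, Finset.sum_const_zero, add_zero, Finset.sum_const,
      nsmul_eq_mul]
  have h5 : (∑ S ∈ Sy ι, ((JJ P n S).ncard : ℝ)) / (Sy ι).card =
      3 ^ (r.choose 2) * ((V.card : ℝ) / 3 ^ (N * r)) := by
    rw [h4]
    field_simp
  rw [h5]
  -- comparison
  have h6 : V.card ≤ ({x | x ∈ Tp P n ∧ ∀ i i', (x i).1 ⬝ᵥ (x i').2 = (x i').1 ⬝ᵥ (x i).2} :
      Set ((Σ j, Fin (n j)) → X ι)).ncard := by
    rw [← Set.ncard_coe_finset]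
    apply Set.ncard_le_ncard _ (Set.toFinite _)
    intro x hx
    have hx' := Finset.mem_filter.1 (Finset.mem_coe.1 hx)
    exact ⟨(Finset.mem_filter.1 hx'.1).2.1, hx'.2⟩
  have h7 : ({x | x ∈ Tp P n ∧ ∀ i i', (x i).1 ⬝ᵥ (x i').2 = (x i').1 ⬝ᵥ (x i).2} :
      Set ((Σ j, Fin (n j)) → X ι)).ncard ≤ V.card +
      ({x | x ∈ Tp P n ∧ ¬ LinearIndependent (ZMod 3) fun i => (x i).1} :
        Set ((Σ j, Fin (n j)) → X ι)).ncard := by
    rw [← Set.ncard_coe_finset]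
    refine (Set.ncard_le_ncard ?_ (Set.toFinite _)).trans (Set.ncard_union_le _ _)
    intro x hx
    by_cases hli : LinearIndependent (ZMod 3) fun i => (x i).1
    · left
      rw [Finset.mem_coe, Finset.mem_filter]
      refine ⟨?_, hx.2⟩
      rw [Finset.mem_filter]
      exact ⟨Finset.mem_univ _, hx.1, hli⟩
    · right
      exact ⟨hx.1, hli⟩
  set B : ℝ := (({x | x ∈ Tp P n ∧ ∀ i i', (x i).1 ⬝ᵥ (x i').2 = (x i').1 ⬝ᵥ (x i).2} :
      Set ((Σ j, Fin (n j)) → X ι)).ncard : ℝ) with hB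
  set D : ℝ := (({x | x ∈ Tp P n ∧ ¬ LinearIndependent (ZMod 3) fun i => (x i).1} :
        Set ((Σ j, Fin (n j)) → X ι)).ncard : ℝ) with hD
  have h6' : (V.card : ℝ) ≤ B := by
    rw [hB]
    exact_mod_cast h6
  have h7' : B ≤ V.card + D := by
    rw [hB, hD]
    exact_mod_cast h7
  have h8 : (V.card : ℝ) / 3 ^ (N * r) ≤ B / 3 ^ (N * r) := div_le_div_of_nonneg_right h6' hq.le
  have h9 : B / 3 ^ (N * r) ≤ (V.card : ℝ) / 3 ^ (N * r) + D / 3 ^ (N * r) := by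
    rw [← add_div]
    exact div_le_div_of_nonneg_right h7' hq.le
  have h10 : t = 3 ^ (r.choose 2) * (t / 3 ^ (r.choose 2)) := by
    field_simp
  have h11 : (3 : ℝ) ^ (r.choose 2) * ((V.card : ℝ) / 3 ^ (N * r)) - t =
      3 ^ (r.choose 2) * ((V.card : ℝ) / 3 ^ (N * r) - t / 3 ^ (r.choose 2)) := by
    rw [mul_sub, ← h10]
  rw [h11, abs_mul, abs_of_pos hs, mul_assoc]
  apply mul_le_mul_of_nonneg_left _ hs.le
  rw [abs_le] at hComp ⊢
  have h12 : 0 ≤ (3 : ℝ) ^ r * δ := by positivity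
  constructor <;> linarith [hComp.1, hComp.2]

end Pool.Agent.D0H52.JT
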