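import Pool.Agent.D0H69.JT.Stm
import Pool.Agent.D0H52.JT.Mom
import Pool.Agent.D0H52.JT.Dec

/-!
# JT PHI (helper52)
-/

set_option autoImplicit false
set_option linter.unusedVariables false

open scoped Classical

namespace Pool.Agent.D0H52.JT

open Finset Filter Topology
open Pool.Agent.D0H69.JT
open Pool.Agent.Y703.XK (c9 S_SYM S_C9)

/-- the subspace `F^ι × 0` -/
def P0 (N : ℕ) : Submodule (ZMod 3) (X (Fin N)) :=
  LinearMap.ker (LinearMap.snd (ZMod 3) (Fin N → ZMod 3) (Fin N → ZMod 3))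

theorem mem_P0 (N : ℕ) (x : X (Fin N)) : x ∈ P0 N ↔ x.2 = 0 := by
  unfold P0
  rw [LinearMap.mem_ker]
  rfl

theorem card_P0 (N : ℕ) : Nat.card (P0 N) = 3 ^ N := by
  have e : P0 N ≃ (Fin N → ZMod 3) :=
    { toFun := fun x => x.1.1
      invFun := fun d => ⟨(d, 0), (mem_P0 N _).2 rfl⟩
      left_inv := by
        rintro ⟨⟨a, b⟩, h⟩
        have hb : b = 0 := (mem_P0 N _).1 h
        subst hb
        rfl
      right_inv := fun d => rfl }
  rw [Nat.card_congr e, Nat.card_eq_fintype_card, Fintype.card_fun, ZMod.card, Fintype.card_fin]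

theorem hyp_P0 (N : ℕ) : Hyp ((1 / 3 : ℝ) ^ N) (fun _ : Unit => P0 N) where
  lag := fun _ =>
    { card := by rw [card_P0, Fintype.card_fin]
      iso := by
        intro x hx y hy
        rw [(mem_P0 N x).1 hx, (mem_P0 N y).1 hy]
        simp }
  inf := by
    intro _
    have h : Inf0 (P0 N) = {0} := by
      ext b
      unfold Inf0
      rw [Set.mem_ofPred_eq, mem_P0]
      rfl
    rw [h, Set.ncard_singleton, Fintype.card_fin, ← mul_pow]
    norm_num
  two := by
    intro j j' h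
    exact absurd (Subsingleton.elim j j') h

theorem gr_single (N : ℕ) (S : Matrix (Fin N) (Fin N) (ZMod 3)) :
    (∀ i : Fin N, Gr S ((Pi.single i 1, 0) : X (Fin N))) ↔ S = 0 := by
  constructor
  · intro h
    ext a b
    have h1 := congrFun (h b) a
    simp only [Matrix.mulVec_single_one] at h1
    exact h1
  · intro h i
    subst h
    unfold Gr
    rw [Matrix.zero_mulVec]

theorem card_Sy (hL1 : S_L1) (N : ℕ) : (Sy (Fin N)).card = 3 ^ (N * (N + 1) / 2) := by
  have h := L1n hL1 (Fin N) (Fin N) (fun i => ((Pi.single i 1, 0) : X (Fin N))) (by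
    have := (Pi.basisFun (ZMod 3) (Fin N)).linearIndependent
    have h2 : (fun i : Fin N => (((Pi.single i 1, 0) : X (Fin N))).1) =
        ⇑(Pi.basisFun (ZMod 3) (Fin N)) := by
      funext i
      rw [Pi.basisFun_apply]
    rw [h2]
    exact this)
  have h1 := h.1 (by intro i i'; simp)
  rw [Fintype.card_fin] at h1
  have h2 : {S : Matrix (Fin N) (Fin N) (ZMod 3) | S ∈ Sy (Fin N) ∧
      ∀ i : Fin N, Gr S ((Pi.single i 1, 0) : X (Fin N))} = {0} := by
    ext S
    rw [Set.mem_ofPred_eq, gr_single, Set.mem_singleton_iff]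
    constructor
    · intro h
      exact h.2
    · intro h
      refine ⟨?_, h⟩
      rw [h, Sy, Finset.mem_filter]
      exact ⟨Finset.mem_univ _, Matrix.isSymm_zero⟩
  rw [h2, Set.ncard_singleton, one_mul] at h1
  have h3 : N * N = N * (N + 1) / 2 + N.choose 2 := by
    rw [Nat.choose_two_right]
    have h4 : N * (N + 1) = N * (N - 1) + 2 * N := by
      cases N with
      | zero => rfl
      | succ n => simp; ring
    have h5 : N * N = N * (N - 1) + N := by
      cases N with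
      | zero => rfl
      | succ n => simp; ring
    have h6 : 2 ∣ N * (N - 1) := by
      rw [← even_iff_two_dvd]
      exact Nat.even_mul_pred_self N
    omega
  rw [h3, pow_add] at h1
  exact (Nat.eq_of_mul_eq_mul_right (by positivity) h1).symm

theorem pr_P0 (hL1 : S_L1) (hsym : S_SYM) (N : ℕ) :
    Pr (fun _ : Unit => P0 N) = ∏ i ∈ range ((N + 1) / 2), (1 - (1 / 3 : ℝ) ^ (2 * i + 1)) := by
  have h := hsym N
  have h1 : {S | S ∈ Sy (Fin N) ∧ ∀ j : Unit, ∀ x ∈ P0 N, Gr S x → x = 0}.ncard =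
      Nat.card {M : Matrix (Fin N) (Fin N) (ZMod 3) // M.IsSymm ∧ M.det ≠ 0} := by
    show _ = ({M : Matrix (Fin N) (Fin N) (ZMod 3) | M.IsSymm ∧ M.det ≠ 0}).ncard
    congr 1
    ext S
    rw [Set.mem_ofPred_eq, Set.mem_ofPred_eq, Sy, Finset.mem_filter]
    have h2 : (∀ j : Unit, ∀ x ∈ P0 N, Gr S x → x = 0) ↔ S.det ≠ 0 := by
      rw [Ne, ← Matrix.exists_mulVec_eq_zero_iff]
      constructor
      · rintro h ⟨v, hv0, hv⟩
        have h3 := h () (v, 0) ((mem_P0 N _).2 rfl) hv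
        exact hv0 (congrArg Prod.fst h3)
      · intro h _ x hx hg
        have hx2 := (mem_P0 N x).1 hx
        unfold Gr at hg
        rw [hx2] at hg
        by_contra hne
        apply h
        refine ⟨x.1, ?_, hg⟩
        intro h0
        exact hne (Prod.ext h0 hx2)
    rw [h2]
    simp only [Finset.mem_univ, true_and]
  rw [Pr_eq]
  have h3 : ({S | S ∈ Sy (Fin N) ∧ ∀ j : Unit, ∀ x ∈ P0 N, Gr S x → x = 0}.ncard : ℝ) =
      3 ^ (N * (N + 1) / 2) * ∏ i ∈ range ((N + 1) / 2), (1 - (1 / 3 : ℝ) ^ (2 * i + 1)) := by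
    rw [h1]
    exact h
  have h4 : ((Sy (Fin N)).card : ℝ) = 3 ^ (N * (N + 1) / 2) := by
    rw [card_Sy hL1 N]
    push_cast
    rfl
  rw [h4, div_eq_iff (by positivity), mul_comm]
  exact h3

theorem t_PHI : S_PHI := by
  intro hB hL1 hC hI hM hR hG hK hS hA hsym hc9 K
  obtain ⟨C, hC0, hC1⟩ := hB hL1 hC hI hM hR hG hK hS hA Unit K
  have key : ∀ M : ℕ, |c9 - ph K| ≤ 2 * (1 / 2 : ℝ) ^ (K + 1) + C * (1 / 3 : ℝ) ^ M + (1 / 9 : ℝ) ^ M := by
    intro M
    have h1 := hC1 (Fin (2 * M)) ((1 / 3 : ℝ) ^ (2 * M)) (fun _ : Unit => P0 (2 * M)) (by positivity)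
      (pow_le_one₀ (by norm_num) (by norm_num)) (hyp_P0 (2 * M))
    rw [pr_P0 hL1 hsym] at h1
    have h2 : (2 * M + 1) / 2 = M := by omega
    rw [h2] at h1
    have h3 : Real.sqrt ((1 / 3 : ℝ) ^ (2 * M)) = (1 / 3 : ℝ) ^ M := by
      rw [mul_comm 2 M, pow_mul]
      exact Real.sqrt_sq (by positivity)
    rw [h3] at h1
    have h4 := hc9.1 M
    simp only [Fintype.card_unit, Nat.cast_one, one_mul, pow_one] at h1
    rw [abs_le] at h1 h4 ⊢
    constructor <;> linarith [h1.1, h1.2, h4.1, h4.2]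
  have hlim : Tendsto (fun M : ℕ => 2 * (1 / 2 : ℝ) ^ (K + 1) + C * (1 / 3 : ℝ) ^ M + (1 / 9 : ℝ) ^ M)
      atTop (𝓝 (2 * (1 / 2 : ℝ) ^ (K + 1) + C * 0 + 0)) := by
    have h1 : Tendsto (fun M : ℕ => (1 / 3 : ℝ) ^ M) atTop (𝓝 0) :=
      tendsto_pow_atTop_nhds_zero_of_lt_one (by norm_num) (by norm_num)
    have h2 : Tendsto (fun M : ℕ => (1 / 9 : ℝ) ^ M) atTop (𝓝 0) :=
      tendsto_pow_atTop_nhds_zero_of_lt_one (by norm_num) (by norm_num)
    exact (tendsto_const_nhds.add (h1.const_mul C)).add h2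
  rw [mul_zero, add_zero, add_zero] at hlim
  exact ge_of_tendsto' hlim key

end Pool.Agent.D0H52.JT
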