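import Pool.Agent.D0H69.JT.StmB

/-!
# JT PROD, REP, CFU (helper52)
-/

set_option autoImplicit false
set_option linter.unusedVariables false

open scoped Classical

namespace Pool.Agent.D0H52.JT

open Finset
open Pool.Agent.D0H69.JT
open Pool.Agent.Y692.QS (Ei w nr toC)
open Pool.Agent.Y715.T.RecG (Pq)
open Pool.Agent.Y715.T.Gi (lam prime_lam lam_sq)
open Pool.Agent.R419.KF (wt el)
open Pool.Agent.N883.FF (ClU FamE ClP unit_prim fam_iff)
open Pool.Agent.N883.FF.Tot (clp_el)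
open Pool.Agent.D0H10.KH (CFam sg sg_unit sg_mul cls lam_dvd_three three_eq mem_cf)
open Pool.Agent.Y699.E (exists_PP)

/-- the carry -/
def car (a b : ZMod 3) : ℕ := (a.val + b.val) / 3

theorem val_add_car (a b : ZMod 3) : a.val + b.val = (a + b).val + 3 * car a b := by
  revert a b
  decide

theorem pow_car (x : Ei) (a b : ZMod 3) : x ^ a.val * x ^ b.val = (x ^ car a b) ^ 3 * x ^ (a + b).val := by
  rw [← pow_add, val_add_car, pow_add, pow_mul, mul_comm, ← pow_mul, ← pow_mul, mul_comm 3]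

theorem w_ne : (w : Ei) ≠ 0 := by
  intro h
  have h1 : (w : Ei) ^ 3 = 1 := by decide
  rw [h] at h1
  revert h1
  decide

theorem lam_ne : (lam : Ei) ≠ 0 := prime_lam.ne_zero

theorem el_eq {M S : Finset Ei} (hM : M ⊆ S) : el M S = ∏ q ∈ S, q ^ (wt M q).val := by
  unfold el
  have h4 : ∏ q ∈ M, q = ∏ q ∈ S, if q ∈ M then q else 1 := by
    rw [prod_ite_mem, inter_eq_right.2 hM]
  rw [h4, ← prod_mul_distrib]
  refine prod_congr rfl fun q _ => ?_
  unfold wt
  split_ifs with hq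
  · have : (2 : ZMod 3).val = 2 := by decide
    rw [this, pow_two]
  · have : (1 : ZMod 3).val = 1 := by decide
    rw [this, pow_one, mul_one]

/-- extension by zero -/
theorem prod_ext0 {Q T : Finset Ei} (h : Q ⊆ T) (f : Ei → ZMod 3) :
    ∏ q ∈ Q, q ^ (f q).val = ∏ q ∈ T, q ^ (if q ∈ Q then f q else 0).val := by
  rw [← Finset.prod_subset h]
  · refine prod_congr rfl fun q hq => ?_
    rw [if_pos hq]
  · intro q _ hq
    rw [if_neg hq]
    simp

theorem prod_mul_car (T : Finset Ei) (f g : Ei → ZMod 3) :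
    (∏ q ∈ T, q ^ (f q).val) * ∏ q ∈ T, q ^ (g q).val =
      (∏ q ∈ T, q ^ car (f q) (g q)) ^ 3 * ∏ q ∈ T, q ^ (f q + g q).val := by
  rw [← prod_mul_distrib, ← prod_pow, ← prod_mul_distrib]
  exact prod_congr rfl fun q _ => pow_car q _ _

theorem prod_ne {T : Finset Ei} (hT : ∀ q ∈ T, Pq q) (e : Ei → ℕ) : ∏ q ∈ T, q ^ e q ≠ 0 :=
  prod_ne_zero_iff.2 fun q hq => pow_ne_zero _ (hT q hq).prime.ne_zero

theorem t_PROD : S_PROD := by
  intro Q f α ι a i M S hQ hMS
  have hSQ : ∀ q ∈ S ∪ Q, Pq q := by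
    intro q hq
    rcases mem_union.1 hq with h | h
    · exact hMS.1 q h
    · exact hQ q h
  have hM'S' : Mf Q f M S ⊆ Sf Q f M S := by
    intro q hq
    unfold Mf at hq
    unfold Sf
    rw [mem_filter] at hq ⊢
    refine ⟨hq.1, ?_⟩
    rw [hq.2]
    decide
  refine ⟨⟨fun q hq => hSQ q (mem_filter.1 hq).1, hM'S'⟩, ?_⟩
  have h1 : el M S = ∏ q ∈ S ∪ Q, q ^ (if q ∈ S then wt M q else 0).val := by
    rw [el_eq hMS.2, prod_ext0 subset_union_left]
  have h2 : ∏ q ∈ Q, q ^ (f q).val = ∏ q ∈ S ∪ Q, q ^ (if q ∈ Q then f q else 0).val :=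
    prod_ext0 subset_union_right f
  have h3 : el (Mf Q f M S) (Sf Q f M S) = ∏ q ∈ S ∪ Q, q ^ (exq Q f M S q).val := by
    rw [el_eq hM'S']
    have hsub : Sf Q f M S ⊆ S ∪ Q := filter_subset _ _
    rw [← Finset.prod_subset hsub]
    · refine prod_congr rfl fun q hq => ?_
      congr 2
      unfold Sf at hq
      rw [mem_filter] at hq
      unfold wt
      split_ifs with hq2
      · exact ((mem_filter.1 hq2).2).symm
      · have h4 : exq Q f M S q ≠ 2 := by
          intro h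
          exact hq2 (mem_filter.2 ⟨hq.1, h⟩)
        have : ∀ x : ZMod 3, x ≠ 0 → x ≠ 2 → 1 = x := by decide
        exact this _ hq.2 h4
    · intro q hq hq2
      have h4 : exq Q f M S q = 0 := by
        by_contra h
        exact hq2 (mem_filter.2 ⟨hq, h⟩)
      rw [h4]
      simp
  refine ⟨lam ^ car α a * (w ^ car ι i * ∏ q ∈ S ∪ Q, q ^ car (if q ∈ S then wt M q else 0)
    (if q ∈ Q then f q else 0)), ?_, ?_⟩
  · exact mul_ne_zero (pow_ne_zero _ lam_ne) (mul_ne_zero (pow_ne_zero _ w_ne) (prod_ne hSQ _))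
  · unfold TwE Del
    rw [h1, h2, h3]
    have e1 := pow_car lam α a
    have e2 := pow_car w ι i
    have e3 := prod_mul_car (S ∪ Q) (fun q => if q ∈ S then wt M q else 0) (fun q => if q ∈ Q then f q else 0)
    rw [add_comm a α, add_comm i ι]
    unfold exq
    generalize (∏ q ∈ S ∪ Q, q ^ (if q ∈ S then wt M q else 0).val) = A at *
    generalize (∏ q ∈ S ∪ Q, q ^ (if q ∈ Q then f q else 0).val) = B at *
    generalize (∏ q ∈ S ∪ Q, q ^ car (if q ∈ S then wt M q else 0) (if q ∈ Q then f q else 0)) = C at *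
    generalize (∏ q ∈ S ∪ Q, q ^ ((if q ∈ S then wt M q else 0) + (if q ∈ Q then f q else 0)).val) = D at *
    calc lam ^ α.val * (w ^ ι.val * B) * (lam ^ a.val * (w ^ i.val * A))
        = (lam ^ α.val * lam ^ a.val) * ((w ^ ι.val * w ^ i.val) * (A * B)) := by ring
      _ = ((lam ^ car α a) ^ 3 * lam ^ (α + a).val) * (((w ^ car ι i) ^ 3 * w ^ (ι + i).val) * (C ^ 3 * D)) := by
          rw [e1, e2, e3]
      _ = (lam ^ car α a * (w ^ car ι i * C)) ^ 3 * (lam ^ (α + a).val * (w ^ (ι + i).val * D)) := by ring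

/-- the form of the units -/
theorem unit_form {u : Ei} (hu : IsUnit u) : ∃ (b : Bool) (i : ZMod 3), u = sg b * w ^ i.val := by
  have hl : ¬ lam ∣ u := fun h => prime_lam.not_isUnit (isUnit_of_dvd_unit h hu)
  obtain ⟨b, i, hi⟩ := cls hl
  have hw3 : (w : Ei) ^ i.val * w ^ (-i).val = 1 := by
    have : ∀ i : ZMod 3, (w : Ei) ^ i.val * w ^ (-i).val = 1 := by decide
    exact this i
  have hwu : IsUnit ((w : Ei) ^ (-i).val) := by
    rw [mul_comm] at hw3
    exact IsUnit.of_mul_eq_one _ hw3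
  have h1 : IsUnit (w ^ (-i).val * (sg b * u)) := hwu.mul ((sg_unit b).mul hu)
  have h2 : (3 : Ei) ∣ w ^ (-i).val * (sg b * u) - 1 := by
    have h3 : w ^ (-i).val * (sg b * u) - 1 = w ^ (-i).val * (sg b * u - w ^ i.val) := by
      rw [mul_sub]
      congr 1
      rw [mul_comm, hw3]
    rw [h3]
    exact hi.mul_left _
  have h3 := unit_prim h1 h2
  refine ⟨b, i, ?_⟩
  have h4 : sg b * u = w ^ i.val := by
    calc sg b * u = (w ^ i.val * w ^ (-i).val) * (sg b * u) := by rw [hw3, one_mul]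
      _ = w ^ i.val * (w ^ (-i).val * (sg b * u)) := by ring
      _ = w ^ i.val := by rw [h3, mul_one]
  rw [← h4, ← mul_assoc, sg_mul, one_mul]

theorem unit_cube {u : Ei} (hu : IsUnit u) : u ^ 3 = 1 ∨ u ^ 3 = -1 := by
  obtain ⟨b, i, rfl⟩ := unit_form hu
  have h1 : ∀ i : ZMod 3, ((w : Ei) ^ i.val) ^ 3 = 1 := by decide
  rw [mul_pow, h1, mul_one]
  cases b
  · right
    decide
  · left
    decide

/-- representable elements -/
def Rp (u : Ei) : Prop := ∃ (c : Ei) (α ι : ZMod 3) (Q : Finset Ei) (f : Ei → ZMod 3),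
  c ≠ 0 ∧ (∀ q ∈ Q, Pq q) ∧ u = c ^ 3 * TwE Q f α ι

theorem rp_mul {u v : Ei} (hu : Rp u) (hv : Rp v) : Rp (u * v) := by
  obtain ⟨c, α, ι, Q, f, hc, hQ, rfl⟩ := hu
  obtain ⟨c', α', ι', Q', f', hc', hQ', rfl⟩ := hv
  have hSQ : ∀ q ∈ Q ∪ Q', Pq q := by
    intro q hq
    rcases mem_union.1 hq with h | h
    · exact hQ q h
    · exact hQ' q h
  have h1 : ∏ q ∈ Q, q ^ (f q).val = ∏ q ∈ Q ∪ Q', q ^ (if q ∈ Q then f q else 0).val :=
    prod_ext0 subset_union_left f
  have h2 : ∏ q ∈ Q', q ^ (f' q).val = ∏ q ∈ Q ∪ Q', q ^ (if q ∈ Q' then f' q else 0).val :=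
    prod_ext0 subset_union_right f'
  refine ⟨c * c' * (lam ^ car α α' * (w ^ car ι ι' * ∏ q ∈ Q ∪ Q', q ^ car (if q ∈ Q then f q else 0)
    (if q ∈ Q' then f' q else 0))), α + α', ι + ι', Q ∪ Q',
    fun q => (if q ∈ Q then f q else 0) + (if q ∈ Q' then f' q else 0), ?_, hSQ, ?_⟩
  · exact mul_ne_zero (mul_ne_zero hc hc') (mul_ne_zero (pow_ne_zero _ lam_ne)
      (mul_ne_zero (pow_ne_zero _ w_ne) (prod_ne hSQ _)))
  · unfold TwE
    rw [h1, h2]
    have e1 := pow_car lam α α'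
    have e2 := pow_car w ι ι'
    have e3 := prod_mul_car (Q ∪ Q') (fun q => if q ∈ Q then f q else 0) (fun q => if q ∈ Q' then f' q else 0)
    generalize (∏ q ∈ Q ∪ Q', q ^ (if q ∈ Q then f q else 0).val) = A at *
    generalize (∏ q ∈ Q ∪ Q', q ^ (if q ∈ Q' then f' q else 0).val) = B at *
    generalize (∏ q ∈ Q ∪ Q', q ^ car (if q ∈ Q then f q else 0) (if q ∈ Q' then f' q else 0)) = C at *
    generalize (∏ q ∈ Q ∪ Q', q ^ ((if q ∈ Q then f q else 0) + (if q ∈ Q' then f' q else 0)).val) = D at *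
    calc c ^ 3 * (lam ^ α.val * (w ^ ι.val * A)) * (c' ^ 3 * (lam ^ α'.val * (w ^ ι'.val * B)))
        = (c * c') ^ 3 * ((lam ^ α.val * lam ^ α'.val) * ((w ^ ι.val * w ^ ι'.val) * (A * B))) := by ring
      _ = (c * c') ^ 3 * (((lam ^ car α α') ^ 3 * lam ^ (α + α').val) *
            (((w ^ car ι ι') ^ 3 * w ^ (ι + ι').val) * (C ^ 3 * D))) := by
          rw [e1, e2, e3]
      _ = _ := by ring

theorem rp_unit {u : Ei} (hu : IsUnit u) : Rp u := by
  obtain ⟨b, i, rfl⟩ := unit_form hu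
  refine ⟨sg b, 0, i, ∅, fun _ => 0, (sg_unit b).ne_zero, by simp, ?_⟩
  have h1 : sg b ^ 3 = sg b := by
    have := sg_mul b
    calc sg b ^ 3 = (sg b * sg b) * sg b := by ring
      _ = sg b := by rw [this, one_mul]
  unfold TwE
  rw [h1]
  simp

theorem rp_lam : Rp lam := by
  refine ⟨1, 1, 0, ∅, fun _ => 0, one_ne_zero, by simp, ?_⟩
  unfold TwE
  have : (1 : ZMod 3).val = 1 := by decide
  rw [this]
  simp

theorem rp_pq {q : Ei} (hq : Pq q) : Rp q := by
  refine ⟨1, 0, 0, {q}, fun _ => 1, one_ne_zero, by simpa using hq, ?_⟩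
  unfold TwE
  have : (1 : ZMod 3).val = 1 := by decide
  rw [prod_singleton, this]
  simp

theorem rp_assoc {p q : Ei} (h : Associated p q) (hp : Rp p) : Rp q := by
  obtain ⟨u, hu⟩ := h
  rw [← hu]
  exact rp_mul hp (rp_unit u.isUnit)

theorem rp_prime {p : Ei} (hp : Prime p) : Rp p := by
  by_cases h3 : p ∣ 3
  · rw [three_eq, dvd_neg] at h3
    have h4 : p ∣ lam := hp.dvd_of_dvd_pow h3
    exact rp_assoc (hp.associated_of_dvd prime_lam h4).symm rp_lam
  · obtain ⟨π, hπ, hass⟩ := exists_PP hp h3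
    exact rp_assoc hass (rp_pq hπ)

theorem t_REP : S_REP := by
  intro u hu
  have h : u ≠ 0 → Rp u := by
    induction u using WfDvdMonoid.induction_on_irreducible with
    | zero => exact fun h => absurd rfl h
    | unit u hu' => exact fun _ => rp_unit hu'
    | mul a p ha hp ih =>
      intro _
      exact rp_mul (rp_prime (irreducible_iff_prime.1 hp)) (ih ha ha)
  exact h hu

theorem t_CFU : S_CFU := by
  refine ⟨?_, ?_, ?_⟩
  · intro a i M S hMS hS
    have hclp : ClP (el M S) := clp_el hMS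
    have h1 : el M S ≠ 1 := Pool.Agent.D0H50.JL.el_ne_one hMS hS
    have h2 : FamE (w ^ i.val * el M S) := (fam_iff i _ hclp.1).2 ⟨hclp, h1⟩
    refine ⟨?_, h2⟩
    have h3 := mem_cf true (a := a.val) (ZMod.val_lt a) h2
    have h4 : sg true = 1 := rfl
    rw [h4, one_mul] at h3
    exact h3
  · intro D D' c d hD hD' hc hd h
    obtain ⟨c', d', g, hcop, hc', hd'⟩ := UniqueFactorizationMonoid.exists_reduced_factors c hc d
    have hg : g ≠ 0 := by
      rintro rfl
      rw [zero_mul] at hc'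
      exact hc hc'.symm
    have h1 : D * c' ^ 3 = D' * d' ^ 3 := by
      rw [← hc', ← hd', mul_pow, mul_pow] at h
      have h2 : g ^ 3 * (D * c' ^ 3) = g ^ 3 * (D' * d' ^ 3) := by linear_combination h
      exact mul_left_cancel₀ (pow_ne_zero 3 hg) h2
    have hcop' : IsCoprime c' d' := hcop.isCoprime
    have h2 : c' ^ 3 ∣ D' := by
      have h3 : c' ^ 3 ∣ D' * d' ^ 3 := ⟨D, by rw [← h1, mul_comm]⟩
      exact (hcop'.pow).dvd_of_dvd_mul_right h3
    have h3 : d' ^ 3 ∣ D := by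
      have h4 : d' ^ 3 ∣ D * c' ^ 3 := ⟨D', by rw [h1, mul_comm]⟩
      exact (hcop'.symm.pow).dvd_of_dvd_mul_right h4
    have hcu := unit_cube (hD'.2 c' h2)
    have hdu := unit_cube (hD.2 d' h3)
    rcases hcu with e1 | e1 <;> rcases hdu with e2 | e2 <;> rw [e1, e2] at h1
    · left
      simpa using h1
    · right
      simpa using h1
    · right
      rw [mul_neg, mul_one, mul_one] at h1
      rw [← h1, neg_neg]
    · left
      simpa using h1
  · intro D c d hD hc hd a i h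
    obtain ⟨c', d', g, hcop, hc', hd'⟩ := UniqueFactorizationMonoid.exists_reduced_factors c hc d
    have hg : g ≠ 0 := by
      rintro rfl
      rw [zero_mul] at hc'
      exact hc hc'.symm
    have h1 : D * c' ^ 3 = d' ^ 3 * (lam ^ a.val * w ^ i.val) := by
      rw [← hc', ← hd', mul_pow, mul_pow] at h
      have h2 : g ^ 3 * (D * c' ^ 3) = g ^ 3 * (d' ^ 3 * (lam ^ a.val * w ^ i.val)) := by
        linear_combination h
      exact mul_left_cancel₀ (pow_ne_zero 3 hg) h2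
    have hcop' : IsCoprime c' d' := hcop.isCoprime
    have hwu : IsUnit ((w : Ei) ^ i.val) := by
      have hw3 : (w : Ei) ^ i.val * w ^ (-i).val = 1 := by
        have : ∀ i : ZMod 3, (w : Ei) ^ i.val * w ^ (-i).val = 1 := by decide
        exact this i
      exact IsUnit.of_mul_eq_one _ hw3
    have h3 : d' ^ 3 ∣ D := by
      have h4 : d' ^ 3 ∣ D * c' ^ 3 := ⟨_, h1⟩
      exact (hcop'.symm.pow).dvd_of_dvd_mul_right h4
    have hdu := hD.2 d' h3
    have h4 : D ∣ lam ^ a.val := by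
      have h5 : D ∣ d' ^ 3 * (lam ^ a.val * w ^ i.val) := ⟨_, h1.symm⟩
      rw [(hdu.pow 3).dvd_mul_left, hwu.dvd_mul_right] at h5
      exact h5
    apply hD.1
    rw [three_eq, dvd_neg]
    have h5 : a.val < 3 := ZMod.val_lt a
    exact h4.trans (pow_dvd_pow lam (by omega))

end Pool.Agent.D0H52.JT
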