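import Pool.Agent.D0H69.JT.Stm
import Pool.Agent.D0H52.JT.Kpow
import Pool.Agent.D0H52.JT.Mom
import Pool.Agent.D0H52.JT.Dec

/-!
# JT SM (helper52)
-/

set_option autoImplicit false
set_option linter.unusedVariables false

open scoped Classical

namespace Pool.Agent.D0H52.JT

open Finset
open Pool.Agent.D0H69.JT

/-- tuples -/
noncomputable def UM {ι : Type} [Fintype ι] [DecidableEq ι] (P : Submodule (ZMod 3) (X ι)) (M : ℕ) :
    Finset (Fin M → X ι) :=
  univ.filter fun x => (∀ i, x i ∈ P) ∧ LinearIndependent (ZMod 3) fun i => (x i).1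

theorem card_JM {ι : Type} [Fintype ι] [DecidableEq ι] (P : Submodule (ZMod 3) (X ι))
    (S : Matrix ι ι (ZMod 3)) (M : ℕ)
    (hM : M ≤ Module.finrank (ZMod 3) (KS P S)) :
    ∏ i : Fin M, (3 ^ Module.finrank (ZMod 3) (KS P S) - 3 ^ (i : ℕ)) ≤
      ((UM P M).filter fun x => ∀ i, Gr S (x i)).card := by
  have h := card_linearIndependent (K := ZMod 3) (V := KS P S) hM
  rw [ZMod.card] at h
  rw [← h, ← Set.ncard_coe_finset]
  have h1 : Function.Injective (fun (s : {s : Fin M → KS P S // LinearIndependent (ZMod 3) s}) =>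
      (fun i => ((s.1 i : KS P S) : X ι))) := by
    intro s s' hss
    apply Subtype.ext
    funext i
    exact Subtype.ext (congrFun hss i)
  rw [← Nat.card_range_of_injective h1]
  show (Set.range _).ncard ≤ _
  apply Set.ncard_le_ncard _ (Set.toFinite _)
  rintro _ ⟨s, rfl⟩
  rw [Finset.mem_coe, Finset.mem_filter, UM, Finset.mem_filter]
  refine ⟨⟨Finset.mem_univ _, fun i => ((mem_KS P S _).1 (s.1 i).2).1, ?_⟩,
    fun i => ((mem_KS P S _).1 (s.1 i).2).2⟩
  have h2 := s.2.map' ((LinearMap.fst (ZMod 3) (ι → ZMod 3) (ι → ZMod 3)) ∘ₗ (KS P S).subtype) (by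
    rw [LinearMap.ker_eq_bot']
    intro x hx
    have hx1 : (x : X ι).1 = 0 := hx
    have hx2 := ((mem_KS P S _).1 x.2).2
    unfold Gr at hx2
    rw [hx1, Matrix.mulVec_zero] at hx2
    exact Subtype.ext (Prod.ext hx1 hx2.symm))
  exact h2

theorem pt {ι : Type} [Fintype ι] [DecidableEq ι] (P : Submodule (ZMod 3) (X ι))
    (S : Matrix ι ι (ZMod 3)) (M : ℕ) :
    (kk P S : ℝ) ^ M ≤ 3 ^ (M ^ 2) + (3 / 2) ^ M * ((UM P M).filter fun x => ∀ i, Gr S (x i)).card := by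
  rw [kk_eq]
  set e := Module.finrank (ZMod 3) (KS P S) with he
  push_cast
  by_cases hM : M ≤ e
  · have h1 := card_JM P S M hM
    have h2 : (∏ i : Fin M, ((3 : ℝ) ^ e - 3 ^ (i : ℕ))) ≤
        ((UM P M).filter fun x => ∀ i, Gr S (x i)).card := by
      have h3 : (∏ i : Fin M, ((3 : ℝ) ^ e - 3 ^ (i : ℕ))) =
          ((∏ i : Fin M, (3 ^ e - 3 ^ (i : ℕ)) : ℕ) : ℝ) := by
        rw [Nat.cast_prod]
        apply Finset.prod_congr rfl
        intro i _
        rw [Nat.cast_sub (pow_le_pow_right₀ (by norm_num) (by omega))]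
        push_cast
        rfl
      rw [h3]
      exact_mod_cast h1
    have h4 : ((3 : ℝ) ^ e) ^ M ≤ (3 / 2) ^ M * ∏ i : Fin M, ((3 : ℝ) ^ e - 3 ^ (i : ℕ)) := by
      have h5 : (3 / 2 : ℝ) ^ M * ∏ i : Fin M, ((3 : ℝ) ^ e - 3 ^ (i : ℕ)) =
          ∏ i : Fin M, ((3 / 2 : ℝ) * ((3 : ℝ) ^ e - 3 ^ (i : ℕ))) := by
        rw [Finset.prod_mul_distrib, Finset.prod_const, Finset.card_univ, Fintype.card_fin]
      have h6 : ((3 : ℝ) ^ e) ^ M = ∏ i : Fin M, ((3 : ℝ) ^ e) := by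
        rw [Finset.prod_const, Finset.card_univ, Fintype.card_fin]
      rw [h5, h6]
      apply Finset.prod_le_prod
      · intro i _
        positivity
      · intro i _
        have h7 : (3 : ℝ) ^ ((i : ℕ) + 1) ≤ 3 ^ e := pow_le_pow_right₀ (by norm_num) (by omega)
        rw [pow_succ] at h7
        linarith
    have h8 : (0 : ℝ) ≤ 3 ^ (M ^ 2) := by positivity
    have h9 : (0 : ℝ) < (3 / 2) ^ M := by positivity
    nlinarith [mul_le_mul_of_nonneg_left h2 h9.le]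
  · have h1 : ((3 : ℝ) ^ e) ^ M ≤ 3 ^ (M ^ 2) := by
      rw [← pow_mul]
      apply pow_le_pow_right₀ (by norm_num)
      rw [sq]
      exact Nat.mul_le_mul_right _ (by omega)
    have h2 : (0 : ℝ) ≤ (3 / 2) ^ M * ((UM P M).filter fun x => ∀ i, Gr S (x i)).card := by positivity
    linarith

theorem t_SM : S_SM := by
  intro hL1 M
  refine ⟨3 ^ (M ^ 2) + (3 / 2) ^ M * 3 ^ (M.choose 2), by positivity, ?_⟩
  intro ι _ _ P hP
  have hSy := Sy_pos ι
  rw [div_le_iff₀ hSy]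
  have h1 : ∑ S ∈ Sy ι, (kk P S : ℝ) ^ M ≤
      ∑ S ∈ Sy ι, (3 ^ (M ^ 2) + (3 / 2) ^ M * (((UM P M).filter fun x => ∀ i, Gr S (x i)).card : ℝ)) :=
    Finset.sum_le_sum fun S _ => pt P S M
  refine h1.trans ?_
  rw [Finset.sum_add_distrib, Finset.sum_const, nsmul_eq_mul, ← Finset.mul_sum]
  have h2 : ∑ S ∈ Sy ι, (((UM P M).filter fun x => ∀ i, Gr S (x i)).card : ℝ) =
      ∑ x ∈ UM P M, (((Sy ι).filter fun S => ∀ i, Gr S (x i)).card : ℝ) := by
    have h3 : ∀ S ∈ Sy ι, (((UM P M).filter fun x => ∀ i, Gr S (x i)).card : ℝ) =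
        ∑ x ∈ UM P M, if (∀ i, Gr S (x i)) then (1 : ℝ) else 0 := by
      intro S _
      rw [Finset.sum_boole]
    rw [Finset.sum_congr rfl h3, Finset.sum_comm]
    apply Finset.sum_congr rfl
    intro x _
    rw [Finset.sum_boole]
  have hq : (0 : ℝ) < 3 ^ (Fintype.card ι * M) := by positivity
  have h4 : ∀ x ∈ UM P M, (((Sy ι).filter fun S => ∀ i, Gr S (x i)).card : ℝ) ≤
      ((Sy ι).card : ℝ) * 3 ^ (M.choose 2) / 3 ^ (Fintype.card ι * M) := by
    intro x hx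
    have hx' := (Finset.mem_filter.1 hx).2.2
    have h5 := L1n hL1 ι (Fin M) x hx'
    rw [Fintype.card_fin, ← filt_ncard] at h5
    by_cases h : ∀ i i', (x i).1 ⬝ᵥ (x i').2 = (x i').1 ⬝ᵥ (x i).2
    · apply le_of_eq
      rw [eq_div_iff hq.ne']
      exact_mod_cast h5.1 h
    · have h6 := h5.2 h
      rw [h6]
      have : (0 : ℝ) ≤ ((Sy ι).card : ℝ) * 3 ^ (M.choose 2) / 3 ^ (Fintype.card ι * M) := by positivity
      simpa using this
  have h5 : ((UM P M).card : ℝ) ≤ 3 ^ (Fintype.card ι * M) := by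
    have h6 : UM P M ⊆ Fintype.piFinset fun _ : Fin M => ((P : Set (X ι))).toFinset := by
      intro x hx
      rw [Fintype.mem_piFinset]
      intro i
      rw [Set.mem_toFinset]
      exact (Finset.mem_filter.1 hx).2.1 i
    have h7 := Finset.card_le_card h6
    rw [Fintype.card_piFinset, Finset.prod_const, Finset.card_univ, Fintype.card_fin] at h7
    have h8 : #((P : Set (X ι))).toFinset = 3 ^ Fintype.card ι := by
      rw [← hP.card, Set.toFinset_card, ← Nat.card_eq_fintype_card]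
      rfl
    rw [h8, ← pow_mul] at h7
    exact_mod_cast h7
  have h6 : ∑ S ∈ Sy ι, (((UM P M).filter fun x => ∀ i, Gr S (x i)).card : ℝ) ≤
      ((Sy ι).card : ℝ) * 3 ^ (M.choose 2) := by
    rw [h2]
    calc ∑ x ∈ UM P M, (((Sy ι).filter fun S => ∀ i, Gr S (x i)).card : ℝ)
        ≤ ∑ x ∈ UM P M, ((Sy ι).card : ℝ) * 3 ^ (M.choose 2) / 3 ^ (Fintype.card ι * M) :=
          Finset.sum_le_sum h4
      _ = (UM P M).card * (((Sy ι).card : ℝ) * 3 ^ (M.choose 2) / 3 ^ (Fintype.card ι * M)) := by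
          rw [Finset.sum_const, nsmul_eq_mul]
      _ ≤ 3 ^ (Fintype.card ι * M) * (((Sy ι).card : ℝ) * 3 ^ (M.choose 2) / 3 ^ (Fintype.card ι * M)) := by
          apply mul_le_mul_of_nonneg_right h5
          positivity
      _ = ((Sy ι).card : ℝ) * 3 ^ (M.choose 2) := by
          field_simp
  have h7 : (0 : ℝ) < (3 / 2) ^ M := by positivity
  calc ((Sy ι).card : ℝ) * 3 ^ (M ^ 2) +
        (3 / 2) ^ M * ∑ S ∈ Sy ι, (((UM P M).filter fun x => ∀ i, Gr S (x i)).card : ℝ)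
      ≤ ((Sy ι).card : ℝ) * 3 ^ (M ^ 2) + (3 / 2) ^ M * (((Sy ι).card : ℝ) * 3 ^ (M.choose 2)) := by
        linarith [mul_le_mul_of_nonneg_left h6 h7.le]
    _ = (3 ^ (M ^ 2) + (3 / 2) ^ M * 3 ^ (M.choose 2)) * ((Sy ι).card : ℝ) := by ring

end Pool.Agent.D0H52.JT
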